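import Pool.Agent.helper47.T1.SpecE1
import Pool.Agent.helper65.RS.BK2

/-!
# MP_07c750, project T1, row QB2: the pointwise limit of the boundary integral with an error term
-/

set_option autoImplicit false

open scoped MatrixGroups ContDiff Topology UpperHalfPlane ComplexConjugate
open UpperHalfPlane MeasureTheory Filter Set

namespace Pool.Agent.T1

open Pool.Agent.RS Pool.Agent.MS

noncomputable section

/-- the elementary estimate of the kernel -/
theorem QB2_core (s k x q η : ℝ) (hq : |q| ≤ 1 / 4) (hη : |s * q + k * x| + 2 * |s| * q ^ 2 ≤ η) :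
    ‖((1 + q : ℝ) : ℂ) ^ (-(1 / 2 : ℂ) + (s : ℂ) * Complex.I) - Complex.exp (-((k * x : ℝ) : ℂ) * Complex.I)‖ ≤ |q| + η := by
  have hq1 := (abs_le.mp hq).1
  have hq2 := (abs_le.mp hq).2
  have hQ : 0 < 1 + q := by linarith
  have hQc : ((1 + q : ℝ) : ℂ) ≠ 0 := Complex.ofReal_ne_zero.mpr hQ.ne'
  have hlog : |Real.log (1 + q) - q| ≤ 2 * q ^ 2 := by
    have h1 := Real.log_le_sub_one_of_pos hQ
    have h2 := Real.one_sub_inv_le_log_of_pos hQ
    have h3 : 1 - (1 + q)⁻¹ = q - q ^ 2 / (1 + q) := by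
      field_simp
      ring
    have h4 : q ^ 2 / (1 + q) ≤ 2 * q ^ 2 := by
      rw [div_le_iff₀ hQ]
      nlinarith [sq_nonneg q]
    rw [abs_le]
    constructor <;> nlinarith [sq_nonneg q]
  have hsplit : ((1 + q : ℝ) : ℂ) ^ (-(1 / 2 : ℂ) + (s : ℂ) * Complex.I) =
      (((√(1 + q))⁻¹ : ℝ) : ℂ) * Complex.exp (((s * Real.log (1 + q) : ℝ) : ℂ) * Complex.I) := by
    rw [Complex.cpow_def_of_ne_zero hQc, ← Complex.ofReal_log hQ.le, mul_add, Complex.exp_add]
    congr 1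
    · rw [Real.sqrt_eq_rpow, ← Real.rpow_neg hQ.le, Real.rpow_def_of_pos hQ, Complex.ofReal_exp]
      congr 1
      push_cast
      ring
    · congr 1
      push_cast
      ring
  have hsq : |(√(1 + q))⁻¹ - 1| ≤ |q| := by
    have h1 : 0 < √(1 + q) := Real.sqrt_pos.mpr hQ
    have h2 : √(1 + q) ^ 2 = 1 + q := Real.sq_sqrt hQ.le
    set y := √(1 + q) with hy
    have h3 : (y⁻¹ - 1) = -(q / (y * (1 + y))) := by
      have : q = y ^ 2 - 1 := by linarith
      rw [this]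
      field_simp
      ring
    rw [h3, abs_neg, abs_div]
    apply div_le_self (abs_nonneg q)
    have h4 : 3 / 4 ≤ y := by nlinarith
    rw [abs_of_pos (by positivity)]
    nlinarith
  rw [hsplit]
  set w : ℂ := Complex.exp (((s * Real.log (1 + q) : ℝ) : ℂ) * Complex.I) with hw
  set z : ℂ := Complex.exp (-((k * x : ℝ) : ℂ) * Complex.I) with hz
  have hwn : ‖w‖ = 1 := Complex.norm_exp_ofReal_mul_I _
  have hwz : ‖w - z‖ ≤ η := by
    have h1 : z = Complex.exp (((-(k * x) : ℝ) : ℂ) * Complex.I) := by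
      rw [hz]
      congr 1
      push_cast
      ring
    have h2 : w - z = z * (Complex.exp (Complex.I * ((s * Real.log (1 + q) + k * x : ℝ) : ℂ)) - 1) := by
      rw [mul_sub, mul_one, h1, ← Complex.exp_add, hw]
      congr 2
      push_cast
      ring
    rw [h2, norm_mul]
    have h3 : ‖z‖ = 1 := by
      rw [h1]
      exact Complex.norm_exp_ofReal_mul_I _
    rw [h3, one_mul]
    refine (Real.norm_exp_I_mul_ofReal_sub_one_le).trans ?_
    rw [Real.norm_eq_abs]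
    have h4 : s * Real.log (1 + q) + k * x = (s * q + k * x) + s * (Real.log (1 + q) - q) := by ring
    rw [h4]
    refine (abs_add_le _ _).trans ?_
    rw [abs_mul s]
    have h5 : |s| * |Real.log (1 + q) - q| ≤ |s| * (2 * q ^ 2) := mul_le_mul_of_nonneg_left hlog (abs_nonneg s)
    linarith
  have h6 : (((√(1 + q))⁻¹ : ℝ) : ℂ) * w - z = (((√(1 + q))⁻¹ - 1 : ℝ) : ℂ) * w + (w - z) := by
    push_cast
    ring
  rw [h6]
  refine (norm_add_le _ _).trans (add_le_add ?_ hwz)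
  rw [norm_mul, hwn, mul_one, Complex.norm_real, Real.norm_eq_abs]
  exact hsq

theorem QB2_exp : Real.exp (1 / 2) ≤ 7 / 4 := by
  have h1 : Real.exp (1 / 2) ^ 2 = Real.exp 1 := by
    rw [← Real.exp_nat_mul]
    norm_num
  have h2 := Real.exp_one_lt_d9
  have h3 := Real.exp_pos (1 / 2)
  nlinarith

/-- the pointwise bound -/
theorem QB2_pt (C : ℝ → ℝ → ℂ) (M : ℝ) (hC : CBM M C) (r s v a : ℝ) (ha : 4 ≤ a) (hr : r = a ^ 4) (hs : |s - r| ≤ a)
    (hv1 : a⁻¹ ≤ |v|) (τ x : ℝ) :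
    ‖BK2_f C r s (r * v) ((r * v) ^ 2) τ x - C x τ * Complex.exp (-((((2 / v) * x + (s - r) * τ : ℝ)) : ℂ) * Complex.I)‖ ≤
      (Icc (-(1 / 4)) (1 / 4 : ℝ) ×ˢ Icc (-(1 / 4)) (1 / 4 : ℝ)).indicator (fun _ => M * (10 / a ^ 2)) (τ, x) := by
  have ha0 : 0 < a := by linarith
  have hM0 : 0 ≤ M := (norm_nonneg _).trans (hC.b0 0 0)
  by_cases h0 : C x τ = 0
  · simp only [BK2_f, h0, zero_mul, sub_zero, norm_zero]
    exact Set.indicator_nonneg (fun _ _ => by positivity) _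
  obtain ⟨hx, hτ⟩ := hC.cb.2 x τ h0
  have hmem : (τ, x) ∈ (Icc (-(1 / 4)) (1 / 4 : ℝ) ×ˢ Icc (-(1 / 4)) (1 / 4 : ℝ)) := ⟨abs_le.mp hτ, abs_le.mp hx⟩
  rw [Set.indicator_of_mem hmem]
  have hr0 : 0 < r := by rw [hr]; positivity
  have hv0 : 0 < |v| := lt_of_lt_of_le (by positivity) hv1
  have hv : v ≠ 0 := abs_pos.mp hv0
  set t : ℝ := r * v with ht
  have htabs : |t| = r * |v| := by rw [ht, abs_mul, abs_of_pos hr0]
  have ht3 : a ^ 3 ≤ |t| := by
    rw [htabs, hr]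
    calc a ^ 3 = a ^ 4 * a⁻¹ := by field_simp
      _ ≤ a ^ 4 * |v| := mul_le_mul_of_nonneg_left hv1 (by positivity)
  have ha3 : 64 ≤ a ^ 3 := by
    calc (64 : ℝ) = 4 ^ 3 := by norm_num
      _ ≤ a ^ 3 := pow_le_pow_left₀ (by norm_num) ha 3
  have ht64 : 64 ≤ |t| := ha3.trans ht3
  have ht0 : 0 < |t| := by linarith
  have htne : t ≠ 0 := abs_pos.mp ht0
  set W : ℝ := x ^ 2 + Real.exp (2 * τ) with hW
  have hW0 : 0 ≤ W := by positivity
  have hW2 : W ≤ 2 := by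
    have h1 : x ^ 2 ≤ 1 / 16 := by
      rw [← sq_abs]
      nlinarith [abs_nonneg x]
    have h2 : Real.exp (2 * τ) ≤ Real.exp (1 / 2) := Real.exp_le_exp.mpr (by linarith [(abs_le.mp hτ).2])
    have h3 := QB2_exp
    linarith
  set q : ℝ := -2 * x / t + W / t ^ 2 with hq
  have hqt : ((x - t) ^ 2 + Real.exp (2 * τ)) / t ^ 2 = 1 + q := by
    rw [hq, hW]
    field_simp
    ring
  have hqle : |q| ≤ 1 / |t| := by
    have h1 : |q| ≤ |(-2 * x / t)| + |W / t ^ 2| := abs_add_le _ _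
    have h2 : |(-2 * x / t)| ≤ (1 / 2) / |t| := by
      rw [abs_div, abs_mul]
      apply div_le_div_of_nonneg_right _ ht0.le
      norm_num
      linarith
    have h3 : |W / t ^ 2| ≤ (1 / 2) / |t| := by
      rw [abs_div, abs_of_nonneg hW0, abs_of_nonneg (sq_nonneg t), ← sq_abs t, div_le_div_iff₀ (by positivity) ht0]
      nlinarith
    calc |q| ≤ (1 / 2) / |t| + (1 / 2) / |t| := by linarith
      _ = 1 / |t| := by ring
  have hqa : 1 / |t| ≤ 1 / a ^ 3 := one_div_le_one_div_of_le (by positivity) ht3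
  have hq4 : |q| ≤ 1 / 4 := by
    have h1 : 1 / |t| ≤ 1 / 64 := one_div_le_one_div_of_le (by norm_num) ht64
    linarith
  have hsabs : |s| ≤ 2 * a ^ 4 := by
    have h1 : |s| ≤ |s - r| + |r| := by
      calc |s| = |(s - r) + r| := by ring_nf
        _ ≤ _ := abs_add_le _ _
    have h2 : a ≤ a ^ 4 := by
      calc a = a ^ 1 := (pow_one a).symm
        _ ≤ a ^ 4 := pow_le_pow_right₀ (by linarith) (by norm_num)
    rw [abs_of_pos hr0, hr] at h1
    rw [hr] at hs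
    linarith
  have hcore := QB2_core s (2 / v) x q (|s * q + 2 / v * x| + 2 * |s| * q ^ 2) hq4 le_rfl
  have hsum : |q| + (|s * q + 2 / v * x| + 2 * |s| * q ^ 2) ≤ 10 / a ^ 2 := by
    have hrt : 2 / v * x = 2 * r * x / t := by
      rw [ht]
      field_simp
    have h1 : s * q + 2 / v * x = -2 * (s - r) * x / t + s * (W / t ^ 2) := by
      rw [hrt, hq]
      ring
    have h2 : |s * q + 2 / v * x| ≤ |(-2 * (s - r) * x / t)| + |s * (W / t ^ 2)| := by
      rw [h1]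
      exact abs_add_le _ _
    have h3 : |(-2 * (s - r) * x / t)| ≤ (a / 2) / |t| := by
      rw [abs_div]
      apply div_le_div_of_nonneg_right _ ht0.le
      rw [abs_mul, abs_mul]
      norm_num
      have h4 : |s - r| * |x| ≤ a * (1 / 4) := mul_le_mul hs hx (abs_nonneg _) ha0.le
      nlinarith
    have h3' : (a / 2) / |t| ≤ 1 / (2 * a ^ 2) := by
      rw [div_le_div_iff₀ ht0 (by positivity)]
      nlinarith
    have ht6 : a ^ 6 ≤ t ^ 2 := by
      rw [← sq_abs t]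
      calc a ^ 6 = (a ^ 3) ^ 2 := by ring
        _ ≤ |t| ^ 2 := pow_le_pow_left₀ (by positivity) ht3 2
    have ht2 : 0 < t ^ 2 := by positivity
    have h5 : |s * (W / t ^ 2)| ≤ 4 / a ^ 2 := by
      rw [abs_mul, abs_div, abs_of_nonneg hW0, abs_of_pos ht2]
      calc |s| * (W / t ^ 2) ≤ (2 * a ^ 4) * (2 / a ^ 6) := by
            apply mul_le_mul hsabs _ (by positivity) (by positivity)
            exact div_le_div₀ (by norm_num) hW2 (by positivity) ht6
        _ = 4 / a ^ 2 := by field_simp; ring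
    have hq2 : q ^ 2 ≤ 1 / a ^ 6 := by
      rw [← sq_abs q]
      calc |q| ^ 2 ≤ (1 / a ^ 3) ^ 2 := pow_le_pow_left₀ (abs_nonneg q) (hqle.trans hqa) 2
        _ = 1 / a ^ 6 := by field_simp
    have h6 : 2 * |s| * q ^ 2 ≤ 4 / a ^ 2 := by
      calc 2 * |s| * q ^ 2 ≤ 2 * (2 * a ^ 4) * (1 / a ^ 6) := by
            apply mul_le_mul _ hq2 (sq_nonneg q) (by positivity)
            linarith
        _ = 4 / a ^ 2 := by field_simp; ring
    have h7 : |q| ≤ 1 / (2 * a ^ 2) := by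
      refine (hqle.trans hqa).trans ?_
      apply one_div_le_one_div_of_le (by positivity)
      nlinarith [sq_nonneg a]
    calc |q| + (|s * q + 2 / v * x| + 2 * |s| * q ^ 2) ≤ 1 / (2 * a ^ 2) + ((1 / (2 * a ^ 2) + 4 / a ^ 2) + 4 / a ^ 2) := by
          linarith
      _ = 9 / a ^ 2 := by field_simp; ring
      _ ≤ 10 / a ^ 2 := div_le_div_of_nonneg_right (by norm_num) (by positivity)
  have hexp : Complex.exp (-((((2 / v) * x + (s - r) * τ : ℝ)) : ℂ) * Complex.I) =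
      Complex.exp ((((r - s) * τ : ℝ) : ℂ) * Complex.I) * Complex.exp (-((2 / v * x : ℝ) : ℂ) * Complex.I) := by
    rw [← Complex.exp_add]
    congr 1
    push_cast
    ring
  have hfac : BK2_f C r s t (t ^ 2) τ x - C x τ * Complex.exp (-((((2 / v) * x + (s - r) * τ : ℝ)) : ℂ) * Complex.I) =
      C x τ * (Complex.exp ((((r - s) * τ : ℝ) : ℂ) * Complex.I) *
        (((1 + q : ℝ) : ℂ) ^ (-(1 / 2 : ℂ) + (s : ℂ) * Complex.I) - Complex.exp (-((2 / v * x : ℝ) : ℂ) * Complex.I))) := by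
    unfold BK2_f
    rw [hqt, hexp]
    ring
  rw [hfac, norm_mul, norm_mul, Complex.norm_exp_ofReal_mul_I, one_mul]
  exact mul_le_mul (hC.b0 x τ) (hcore.trans hsum) (norm_nonneg _) hM0

theorem QB2_int {G : ℝ × ℝ → ℂ} (hG : Continuous G)
    (hs : ∀ p, p ∉ (Icc (-(1 / 4)) (1 / 4 : ℝ) ×ˢ Icc (-(1 / 4)) (1 / 4 : ℝ)) → G p = 0) :
    Integrable G (volume.prod volume) ∧ ∫ τ : ℝ, ∫ x : ℝ, G (τ, x) = ∫ p, G p ∂(volume.prod volume) := by
  have h1 : HasCompactSupport G :=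
    HasCompactSupport.intro ((isCompact_Icc (a := -(1 / 4 : ℝ)) (b := 1 / 4)).prod
      (isCompact_Icc (a := -(1 / 4 : ℝ)) (b := 1 / 4))) (fun p hp => hs p hp)
  have h2 : Integrable G (volume.prod volume) := hG.integrable_of_hasCompactSupport h1
  exact ⟨h2, (integral_prod G h2).symm⟩

theorem QB2_proof : QB2_stmt := by
  refine ⟨256, by norm_num, fun C M hC r s v hr hs hv1 hv2 => ?_⟩
  set a : ℝ := r ^ (1 / 4 : ℝ) with ha
  have hr0 : 0 < r := by linarith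
  have hra : r = a ^ 4 := by
    rw [ha, ← Real.rpow_natCast, ← Real.rpow_mul hr0.le]
    norm_num
  have ha0 : 0 < a := Real.rpow_pos_of_pos hr0 _
  have ha4 : 4 ≤ a := by
    by_contra h
    push Not at h
    have h1 : a ^ 4 < 4 ^ 4 := pow_lt_pow_left₀ h ha0.le (by norm_num)
    rw [← hra] at h1
    norm_num at h1
    linarith
  have hinv : r ^ (-(1 / 4) : ℝ) = a⁻¹ := by rw [Real.rpow_neg hr0.le]
  rw [hinv] at hv1 ⊢
  have hM0 : 0 ≤ M := (norm_nonneg _).trans (hC.b0 0 0)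
  have hv0 : 0 < |v| := lt_of_lt_of_le (by positivity) hv1
  have hv : v ≠ 0 := abs_pos.mp hv0
  have hrv0 : r * v ≠ 0 := mul_ne_zero hr0.ne' hv
  have hT : 0 < (r * v) ^ 2 := by positivity
  have e1 : r * ‖bI C r s (r * v)‖ = |v|⁻¹ * ‖∫ τ : ℝ, ∫ x : ℝ, BK2_f C r s (r * v) ((r * v) ^ 2) τ x‖ := by
    rw [BK2_factor C r s (r * v) ((r * v) ^ 2) hT, norm_mul, ← mul_assoc, BK2_norm r s v hr0 hv]
  set G1 : ℝ × ℝ → ℂ := fun p => BK2_f C r s (r * v) ((r * v) ^ 2) p.1 p.2 with hG1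
  set G2 : ℝ × ℝ → ℂ := fun p => C p.2 p.1 * Complex.exp (-((((2 / v) * p.2 + (s - r) * p.1 : ℝ)) : ℂ) * Complex.I) with hG2
  have hC0 : ∀ p : ℝ × ℝ, p ∉ (Icc (-(1 / 4)) (1 / 4 : ℝ) ×ˢ Icc (-(1 / 4)) (1 / 4 : ℝ)) → C p.2 p.1 = 0 := by
    intro p hp
    by_contra h
    obtain ⟨h2, h3⟩ := hC.cb.2 p.2 p.1 h
    exact hp ⟨abs_le.mp h3, abs_le.mp h2⟩
  have c1 : Continuous G1 := BK2_cont hC.cb r s (r * v) hT
  have c2 : Continuous G2 := by
    have h1 : Continuous (fun p : ℝ × ℝ => C p.2 p.1) :=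
      hC.cb.1.continuous.comp (continuous_snd.prodMk continuous_fst)
    refine h1.mul (Complex.continuous_exp.comp ?_)
    fun_prop
  obtain ⟨i1, j1⟩ := QB2_int c1 (fun p hp => by simp only [hG1, BK2_f, hC0 p hp, zero_mul])
  obtain ⟨i2, j2⟩ := QB2_int c2 (fun p hp => by simp only [hG2, hC0 p hp, zero_mul])
  have e2 : bF C (2 / v) (s - r) = ∫ p, G2 p ∂(volume.prod volume) := j2
  have e3 : ∫ τ : ℝ, ∫ x : ℝ, BK2_f C r s (r * v) ((r * v) ^ 2) τ x = ∫ p, G1 p ∂(volume.prod volume) := j1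
  have hbox : MeasurableSet (Icc (-(1 / 4)) (1 / 4 : ℝ) ×ˢ Icc (-(1 / 4)) (1 / 4 : ℝ)) :=
    measurableSet_Icc.prod measurableSet_Icc
  have hvol : ((volume : Measure ℝ).prod (volume : Measure ℝ)) (Icc (-(1 / 4)) (1 / 4 : ℝ) ×ˢ Icc (-(1 / 4)) (1 / 4 : ℝ)) =
      ENNReal.ofReal (1 / 4) := by
    rw [Measure.prod_prod, Real.volume_Icc, ← ENNReal.ofReal_mul (by norm_num)]
    congr 1
    norm_num
  have hdiff : ‖(∫ p, G1 p ∂(volume.prod volume)) - ∫ p, G2 p ∂(volume.prod volume)‖ ≤ M * (10 / a ^ 2) * (1 / 4) := by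
    rw [← integral_sub i1 i2]
    have h1 : Integrable ((Icc (-(1 / 4)) (1 / 4 : ℝ) ×ˢ Icc (-(1 / 4)) (1 / 4 : ℝ)).indicator
        (fun _ : ℝ × ℝ => M * (10 / a ^ 2))) (volume.prod volume) := by
      rw [integrable_indicator_iff hbox]
      exact integrableOn_const (by rw [hvol]; exact ENNReal.ofReal_ne_top)
    have h2 := norm_integral_le_of_norm_le h1 (Eventually.of_forall fun p : ℝ × ℝ =>
      QB2_pt C M hC r s v a ha4 hra hs hv1 p.1 p.2)
    refine h2.trans (le_of_eq ?_)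
    rw [integral_indicator hbox, setIntegral_const, Measure.real, hvol, ENNReal.toReal_ofReal (by norm_num), smul_eq_mul]
    ring
  rw [e1, e3, e2, ← mul_sub, abs_mul, abs_of_nonneg (by positivity : (0 : ℝ) ≤ |v|⁻¹)]
  have hva : |v|⁻¹ ≤ a := by
    rw [inv_le_comm₀ hv0 ha0]
    exact hv1
  calc |v|⁻¹ * |‖∫ p, G1 p ∂(volume.prod volume)‖ - ‖∫ p, G2 p ∂(volume.prod volume)‖|
      ≤ a * (M * (10 / a ^ 2) * (1 / 4)) :=
        mul_le_mul hva ((abs_norm_sub_norm_le _ _).trans hdiff) (abs_nonneg _) ha0.le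
    _ = (5 / 2) * M * a⁻¹ := by field_simp; ring
    _ ≤ 256 * M * a⁻¹ := by
        have : 0 ≤ M * a⁻¹ := by positivity
        nlinarith

end

end Pool.Agent.T1
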